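import Pool.Agent.Helper46.BC.Final

/-!
# MP_ab10b5_ag, Question 1: the answer is negative for every ultrafilter and every isomorphism

`R(k) = k[x,y]_(x,y)`. Let `U` be a non-principal ultrafilter on the set of primes, let `F p` be
algebraically closed fields of characteristic `p` (such as algebraic closures of the prime fields),
and let `π` be the homomorphism from the product of the `F p` to `ℂ` given by an isomorphism of
their ultraproduct with `ℂ`. Then there are four polynomials `h_j` in six variables over `R(ℂ)` such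
that, with `S = R(ℂ)[Y_1,…,Y_6]/(h_1,…,h_4)`,

* there are a big Cohen-Macaulay `R(ℂ)`-algebra `B` and a homomorphism of `R(ℂ)`-algebras `S → B`;
* `S` has approximations, and for every approximation `h'_j` of the `h_j` and for almost all `p`
  there is no big Cohen-Macaulay algebra over `R(F p)` with a homomorphism of `R(F p)`-algebras
  from `S_p = R(F p)[Y_1,…,Y_6]/(h'_{1p},…,h'_{4p})`.

For suitable complex numbers `t`, `l` the polynomials are
`Y_1^6 - (x^6 + y^6)`, `Y_2^6 - (x^6 + t y^6)`, `x^2 y^2 - (Y_3 x^3 + Y_5 Y_1 + Y_6 Y_2)`,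
`Y_4 y^3 + Y_5 Y_1 + l Y_6 Y_2`.
-/

set_option autoImplicit false

namespace Pool.Agent.Results.MP_ab10b5_ag.EveryUltrafilter

open Pool.Agent.Helper46.BC

universe v

theorem result (U : Ultrafilter Nat.Primes) (hU : ∀ p, U ≠ pure p) (F : Nat.Primes → Type)
    [∀ p, Field (F p)] [∀ p, IsAlgClosed (F p)] [∀ p, CharP (F p) (p : ℕ)]
    (π : (∀ p, F p) →+* ℂ) (hπ : IsUlim U π) :
    ∃ h : Fin 4 → MvPolynomial (Fin 6) (Rk ℂ),
      MapsToBigCM.{0} ℂ h ∧
      (∃ h' : Fin 4 → ∀ p, MvPolynomial (Fin 6) (Rk (F p)), ∀ j, ApproxS U π (h j) (h' j)) ∧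
      ∀ h' : Fin 4 → ∀ p, MvPolynomial (Fin 6) (Rk (F p)), (∀ j, ApproxS U π (h j) (h' j)) →
        ∀ᶠ p in (U : Filter Nat.Primes), ¬ MapsToBigCM.{v} (F p) (fun j => h' j p) :=
  main U hU F π hπ

end Pool.Agent.Results.MP_ab10b5_ag.EveryUltrafilter
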